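import Pool.Agent.H198R3.PozFinal

/-!
# Associative embeddings of the simple `n`-Lie algebra `L_{n+1}` for odd `n`

Pozhidaev's conjecture holds for odd `n`: over every field of characteristic different from two
the simple `n`-Lie (Filippov) algebra `L_{n+1}` is isomorphic to a subalgebra of `A⁻` for some
associative algebra `A`.

Idea.  Over the algebraic closure replace the orthonormal basis by `y_0, …, y_n` in which only
`e_0, e_n` have been replaced by a hyperbolic pair.  The universal associative algebra has the
relations `alt(y_0, …, ŷ_j, …, y_n) = r_j` with `r_j` linear, and, since `n` is odd, also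
`y_n y_0 + y_0 y_n + 2 ∑ y_k² = 0`.  For the degree-lexicographic order the leading words are the
decreasing words with one letter missing and `y_n y_0`; their only overlap is `y_n … y_0`, and it
is resolved by comparing the expansions of `alt(y_0, …, y_n)` along the first and the last
factor.  By the diamond lemma the letters stay linearly independent.
-/

namespace Pool.Agent.Results.MP_2df8e9_al.PozhidaevOdd

open Pool.Agent.H198R3

universe u v

/-- The `n`-ary bracket of `A⁻`: the alternating sum
`[a_1, …, a_n] = ∑ σ, sgn σ • a_(σ 1) a_(σ 2) ⋯ a_(σ n)` over all permutations. -/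
def minusBracket {A : Type u} [Ring A] {n : ℕ} (a : Fin n → A) : A :=
  ∑ σ : Equiv.Perm (Fin n), ((Equiv.Perm.sign σ : ℤˣ) : ℤ) • (List.ofFn fun k => a (σ k)).prod

/-- `B` is the bracket of `L_{n+1}` with respect to the basis `e`: it is an alternating
`n`-linear map with `[e_1, …, ê_i, …, e_{n+1}] = (-1)^(n+i+1) e_i` (here the index `i : Fin (n+1)`
starts at `0`, so it stands for `i + 1` in the usual numbering). -/
def IsFilippov {F : Type u} [Field F] {L : Type v} [AddCommGroup L] [Module F L] {n : ℕ}
    (e : Module.Basis (Fin (n + 1)) F L) (B : L [⋀^Fin n]→ₗ[F] L) : Prop :=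
  ∀ i : Fin (n + 1), B (fun k => e (i.succAbove k)) = (-1 : F) ^ (n + ((i : ℕ) + 1) + 1) • e i

/-- (Not used in the result.)  The algebra `L_{n+1}` exists on `F^(n+1)`: the generalised cross
product. -/
theorem filippov_exists (F : Type u) [Field F] (n : ℕ) :
    ∃ B : (Fin (n + 1) → F) [⋀^Fin n]→ₗ[F] (Fin (n + 1) → F),
      IsFilippov (Pi.basisFun F (Fin (n + 1))) B := by
  refine ⟨AlternatingMap.pi fun i : Fin (n + 1) =>
    ((-1 : F) ^ (n + ((i : ℕ) + 1) + 1)) •
      (Matrix.detRowAlternating (n := Fin n) (R := F)).compLinearMap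
        (LinearMap.funLeft F F i.succAbove), ?_⟩
  intro i
  ext k
  rw [AlternatingMap.pi_apply, AlternatingMap.smul_apply, AlternatingMap.compLinearMap_apply,
    Pi.smul_apply, Pi.basisFun_apply]
  by_cases hk : k = i
  · subst hk
    rw [Pi.single_eq_same]
    congr 1
    have : (fun l : Fin n => (LinearMap.funLeft F F k.succAbove)
        ((Pi.basisFun F (Fin (n + 1))) (k.succAbove l))) = (1 : Matrix (Fin n) (Fin n) F) := by
      ext a b
      rw [LinearMap.funLeft_apply, Pi.basisFun_apply, Matrix.one_apply]
      by_cases hab : a = b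
      · subst hab
        simp
      · rw [if_neg hab, Pi.single_eq_of_ne]
        intro h
        exact hab (Fin.succAbove_right_injective h).symm
    change Matrix.det (fun l : Fin n => (LinearMap.funLeft F F k.succAbove)
        ((Pi.basisFun F (Fin (n + 1))) (k.succAbove l))) = 1
    rw [this, Matrix.det_one]
  · rw [Pi.single_eq_of_ne hk, smul_zero, smul_eq_mul]
    obtain ⟨l, hl⟩ := Fin.exists_succAbove_eq hk
    have : Matrix.det (fun l : Fin n => (LinearMap.funLeft F F k.succAbove)
        ((Pi.basisFun F (Fin (n + 1))) (i.succAbove l))) = 0 := by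
      apply Matrix.det_eq_zero_of_row_eq_zero l
      intro b
      rw [LinearMap.funLeft_apply, Pi.basisFun_apply, Pi.single_eq_of_ne]
      rw [hl]
      exact Fin.succAbove_ne _ _
    change _ * Matrix.det (fun l : Fin n => (LinearMap.funLeft F F k.succAbove)
        ((Pi.basisFun F (Fin (n + 1))) (i.succAbove l))) = 0
    rw [this, mul_zero]

/-- **Pozhidaev's conjecture for odd `n`.**  Let `F` be a field of characteristic different from
two, `n ≥ 3` odd and `L` the simple `n`-Lie algebra `L_{n+1}` over `F`.  Then there are an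
associative `F`-algebra `A` and an injective homomorphism `L → A⁻`. -/
theorem result (F : Type u) [Field F] (h2 : (2 : F) ≠ 0) (n : ℕ) (hn : 3 ≤ n) (hodd : Odd n)
    (L : Type v) [AddCommGroup L] [Module F L] (e : Module.Basis (Fin (n + 1)) F L)
    (B : L [⋀^Fin n]→ₗ[F] L) (hB : IsFilippov e B) :
    ∃ (A : Type u) (_ : Ring A) (_ : Algebra F A) (j : L →ₗ[F] A),
      Function.Injective j ∧ ∀ v : Fin n → L, j (B v) = minusBracket (fun k => j (v k)) := by
  have hB' : ∀ i : Fin (n + 1), B (fun k => e (i.succAbove k)) =
      (-1 : F) ^ (n + (i : ℕ)) • e i := by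
    intro i
    rw [hB i]
    congr 1
    rw [show n + ((i : ℕ) + 1) + 1 = n + (i : ℕ) + 2 by ring, pow_add]
    simp
  obtain ⟨t, j, hj, hv⟩ := PozFinal.embed h2 hn hodd e B hB'
  exact ⟨_, inferInstance, inferInstance, j, hj, hv⟩

end Pool.Agent.Results.MP_2df8e9_al.PozhidaevOdd
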